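import Pool.Agent.helper1.VD.SpecA2

/-!
# Project VD (MP_07c750_an), block A2, row ABMA: the linear data of the beams
-/

set_option autoImplicit false

open scoped ContDiff Topology InnerProductSpace ComplexConjugate ENNReal
open MeasureTheory Filter Set

namespace Pool.Agent.VD

open Pool.Agent.VQ (CH)

noncomputable section

theorem ABMA_mono {d : ℕ} {L L' : ℝ} {Y Q : MC d} (h : L ≤ L') (hL : Lag L Y Q) : Lag L' Y Q :=
  ⟨hL.sym, hL.pos, fun i j => (hL.bdY i j).trans h, fun i j => (hL.bdP i j).trans h⟩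

theorem ABMA_proof (hAWMT : AWMT_stmt) (hAWLN : AWLN_stmt) (hAWDT : AWDT_stmt) (hGSY : GSY_stmt) (hACNF : ACNF_stmt) : ABMA_stmt := by
  intro d Γ _ _ K k B r hK
  obtain ⟨C1, hC1, hcnf⟩ := hACNF d Γ K k B r 1 hK
  obtain ⟨C3, hC3, hdt⟩ := hAWDT d
  obtain ⟨C2, hC2⟩ : ∃ C2 : ℝ, C2 = 2 * (d + 1) * (1 + C1) := ⟨_, rfl⟩
  have hd0 : (0 : ℝ) ≤ d := Nat.cast_nonneg d
  have hC21 : 1 ≤ C2 := by rw [hC2]; nlinarith
  obtain ⟨C, hC⟩ : ∃ C : ℝ, C = C2 + C3 * C2 ^ 2 + C3 * C2 ^ d + d := ⟨_, rfl⟩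
  have hp1 : 0 ≤ C3 * C2 ^ 2 := by positivity
  have hp2 : 0 ≤ C3 * C2 ^ d := by positivity
  have hCa : C2 ≤ C := by rw [hC]; linarith
  have hCb : C3 * C2 ^ 2 ≤ C := by rw [hC]; linarith
  have hCc : C3 * C2 ^ d ≤ C := by rw [hC]; linarith
  have hCd : (d : ℝ) ≤ C := by rw [hC]; linarith
  refine ⟨C, by linarith, ?_⟩
  intro G Φ p t L Y0 P0 hO hp hE ht hL1 hL
  have hmet := hO.cls.met
  obtain ⟨hsy, -, -⟩ := hGSY d G Φ hmet hO.flow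
  have hHam : Ham G p ≤ 2 := by
    have h1 := (abs_le.1 hE).2
    unfold Ep at h1
    linarith
  obtain ⟨-, -, hT, -, -⟩ := hcnf G Φ hO p t hp hHam ht
  have hL0 : 0 < L := by linarith
  have h1 : Lag (2 * (d + 1) * (1 + ‖fderiv ℝ (Φ t) p‖) * L) (Yf (Φ t) p Y0 P0) (Pf (Φ t) p Y0 P0) :=
    hAWLN d (fderiv ℝ (Φ t) p) (hsy t p) L Y0 P0 hL0.le hL
  have h2 : Lag (C2 * L) (Yf (Φ t) p Y0 P0) (Pf (Φ t) p Y0 P0) := by
    refine ABMA_mono ?_ h1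
    rw [hC2]
    gcongr
  have hCL : 1 ≤ C2 * L := by nlinarith
  obtain ⟨d1, d2, -, d4, -, d6, d7⟩ := hdt (C2 * L) _ _ hCL h2
  obtain ⟨-, -, -, -, e5, -, -⟩ := hdt L Y0 P0 hL1 hL
  obtain ⟨ha, -, -, -, -⟩ := hAWMT d G Φ hmet hO.flow L Y0 P0 hL
  obtain ⟨-, -, ha3, -⟩ := ha p t
  have hsq : C3 * (C2 * L) ^ 2 ≤ C * L ^ 2 := by
    rw [mul_pow, ← mul_assoc]
    exact mul_le_mul_of_nonneg_right hCb (by positivity)
  refine ⟨ABMA_mono (mul_le_mul_of_nonneg_right hCa hL0.le) h2, d1, ha3, ?_, d2, fun i j => (d4 i j).trans hsq, fun w => ?_⟩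
  · have h3 : ‖amp Φ p Y0 P0 t‖ ^ 2 * ‖(Yf (Φ t) p Y0 P0).det‖ = ‖Y0.det‖ := by
      rw [← norm_pow, ← norm_mul, ha3]
    have hdet : 0 < ‖(Yf (Φ t) p Y0 P0).det‖ := norm_pos_iff.2 d1
    have h4 : ‖amp Φ p Y0 P0 t‖ ^ 2 = ‖Y0.det‖ * ‖(Yf (Φ t) p Y0 P0).det‖⁻¹ := by
      rw [← h3]
      field_simp
    have h5 : ‖amp Φ p Y0 P0 t‖ ^ 2 ≤ (C3 * C2 ^ d * L ^ d) ^ 2 := by
      rw [h4]
      calc ‖Y0.det‖ * ‖(Yf (Φ t) p Y0 P0).det‖⁻¹ ≤ (C3 * L ^ d) * (C3 * (C2 * L) ^ d) := mul_le_mul e5 d6 (by positivity) (by positivity)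
        _ = C3 ^ 2 * L ^ d * L ^ d * C2 ^ d * 1 := by rw [mul_pow]; ring
        _ ≤ C3 ^ 2 * L ^ d * L ^ d * C2 ^ d * C2 ^ d := mul_le_mul_of_nonneg_left (one_le_pow₀ hC21) (by positivity)
        _ = (C3 * C2 ^ d * L ^ d) ^ 2 := by ring
    have h6 : ‖amp Φ p Y0 P0 t‖ ≤ C3 * C2 ^ d * L ^ d := le_of_sq_le_sq h5 (by positivity)
    refine h6.trans ?_
    have h7 : L ^ d ≤ L ^ C := by
      rw [← Real.rpow_natCast]
      exact Real.rpow_le_rpow_of_exponent_le hL1 hCd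
    exact mul_le_mul hCc h7 (by positivity) (by linarith)
  · have h8 := d7 w
    have h9 : 0 ≤ (qf (Mt Φ p Y0 P0 t) w).im := by
      by_contra hneg
      have h10 : C3 * (C2 * L) ^ 2 * (qf (Mt Φ p Y0 P0 t) w).im < 0 := mul_neg_of_pos_of_neg (by positivity) (not_le.1 hneg)
      have h11 : (0 : ℝ) ≤ ‖w‖ ^ 2 := by positivity
      exact absurd (h11.trans h8) (not_le.2 h10)
    exact h8.trans (mul_le_mul_of_nonneg_right hsq h9)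

end

end Pool.Agent.VD
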