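import Pool.Agent.helper1.VD.SpecA2
import Pool.Agent.helper45.VD.ALSY

/-!
# Project VD (MP_07c750_an), block A2, row AWDT: linear algebra of the matrices of the beams
-/

set_option autoImplicit false

open scoped ContDiff Topology InnerProductSpace ComplexConjugate ENNReal
open MeasureTheory Filter Set

namespace Pool.Agent.VD

open Pool.Agent.VQ (CH)

noncomputable section

theorem AWDT_tr {d : ℕ} (L : ℝ) (Y Q : MC d) (hl : Lag L Y Q) : (Q * Y⁻¹).transpose = Q * Y⁻¹ := by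
  have hun : IsUnit Y.det := isUnit_iff_ne_zero.2 (ALSY_det L Y Q hl)
  have hYZ : Y * Y⁻¹ = 1 := Matrix.mul_nonsing_inv _ hun
  have hZYt : Y⁻¹.transpose * Y.transpose = 1 := by rw [← Matrix.transpose_mul, hYZ, Matrix.transpose_one]
  have e1 : Y⁻¹.transpose * (Y.transpose * Q) * Y⁻¹ = Y⁻¹.transpose * (Q.transpose * Y) * Y⁻¹ := by rw [hl.sym]
  have e2 : Y⁻¹.transpose * (Y.transpose * Q) * Y⁻¹ = Q * Y⁻¹ := by
    rw [← Matrix.mul_assoc, hZYt, Matrix.one_mul]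
  have e3 : Y⁻¹.transpose * (Q.transpose * Y) * Y⁻¹ = (Q * Y⁻¹).transpose := by
    rw [← Matrix.mul_assoc, Matrix.mul_assoc _ Y Y⁻¹, hYZ, Matrix.mul_one, Matrix.transpose_mul]
  rw [← e3, ← e1, e2]

theorem AWDT_im {d : ℕ} (L : ℝ) (Y Q : MC d) (hl : Lag L Y Q) (w : V d) :
    (qf (Q * Y⁻¹) w).im = ∑ k, ‖(Y⁻¹.mulVec fun k => ((w k : ℝ) : ℂ)) k‖ ^ 2 := by
  have hun : IsUnit Y.det := isUnit_iff_ne_zero.2 (ALSY_det L Y Q hl)
  set wc : Fin d → ℂ := fun k => ((w k : ℝ) : ℂ) with hwc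
  set u : Fin d → ℂ := Y⁻¹.mulVec wc with hu
  have hYu : Y.mulVec u = wc := by
    rw [hu, Matrix.mulVec_mulVec, Matrix.mul_nonsing_inv _ hun, Matrix.one_mulVec]
  have hst : star wc = wc := by
    funext k
    simp [hwc]
  have h1 := ALSY_ses L Y Q hl u
  rw [hYu, ALSY_sq, hst] at h1
  have h2 : qf (Q * Y⁻¹) w = wc ⬝ᵥ Q.mulVec u := by
    rw [hu, Matrix.mulVec_mulVec, qf, dotProduct]
    apply Finset.sum_congr rfl
    intro i _
    rw [Matrix.mulVec, dotProduct, Finset.mul_sum]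
    apply Finset.sum_congr rfl
    intro j _
    simp only [hwc]
    push_cast
    ring
  have h3 : star (Q.mulVec u) ⬝ᵥ wc = star (wc ⬝ᵥ Q.mulVec u) := by
    rw [Matrix.star_dotProduct, hst, dotProduct_comm]
  rw [h3, ← h2] at h1
  have h4 := congrArg Complex.im h1
  simp only [Complex.sub_im, Complex.star_def, Complex.conj_im, Complex.mul_im, Complex.mul_re, Complex.I_re, Complex.I_im, Complex.ofReal_re,
    Complex.ofReal_im, Complex.re_ofNat, Complex.im_ofNat] at h4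
  linarith

theorem AWDT_low {d : ℕ} (L : ℝ) (Y Q : MC d) (hL : 1 ≤ L) (hl : Lag L Y Q) (w : V d) : ‖w‖ ^ 2 ≤ (d : ℝ) ^ 2 * L ^ 2 * (qf (Q * Y⁻¹) w).im := by
  have hun : IsUnit Y.det := isUnit_iff_ne_zero.2 (ALSY_det L Y Q hl)
  rw [AWDT_im L Y Q hl w]
  set u : Fin d → ℂ := Y⁻¹.mulVec fun k => ((w k : ℝ) : ℂ) with hu
  have hYu : Y.mulVec u = fun k => ((w k : ℝ) : ℂ) := by
    rw [hu, Matrix.mulVec_mulVec, Matrix.mul_nonsing_inv _ hun, Matrix.one_mulVec]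
  have h1 : ∀ k, ‖w k‖ ≤ L * ∑ j, ‖u j‖ := by
    intro k
    have h2 : ((w k : ℝ) : ℂ) = ∑ j, Y k j * u j := by
      have h3 := congrFun hYu k
      rw [← h3]
      rfl
    rw [← Complex.norm_real, h2, Finset.mul_sum]
    refine (norm_sum_le _ _).trans (Finset.sum_le_sum fun j _ => ?_)
    rw [norm_mul]
    exact mul_le_mul_of_nonneg_right (hl.bdY k j) (norm_nonneg _)
  have h5 : (∑ k, ‖u k‖) ^ 2 ≤ d * ∑ k, ‖u k‖ ^ 2 := by
    have := sq_sum_le_card_mul_sum_sq (s := Finset.univ) (f := fun k : Fin d => ‖u k‖)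
    simpa using this
  rw [EuclideanSpace.norm_sq_eq]
  calc ∑ k, ‖w k‖ ^ 2 ≤ ∑ _k : Fin d, (L * ∑ j, ‖u j‖) ^ 2 := Finset.sum_le_sum fun k _ => pow_le_pow_left₀ (norm_nonneg _) (h1 k) 2
    _ = d * (L ^ 2 * (∑ j, ‖u j‖) ^ 2) := by
      rw [Finset.sum_const, Finset.card_univ, Fintype.card_fin, nsmul_eq_mul, mul_pow]
    _ ≤ d * (L ^ 2 * (d * ∑ k, ‖u k‖ ^ 2)) := by gcongr
    _ = (d : ℝ) ^ 2 * L ^ 2 * ∑ k, ‖u k‖ ^ 2 := by ring

theorem AWDT_proof : AWDT_stmt := by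
  intro d
  have hf : (1 : ℝ) ≤ (d.factorial : ℝ) := by exact_mod_cast d.factorial_pos
  have hd0 : (0 : ℝ) ≤ (d : ℝ) := Nat.cast_nonneg d
  have hd1 : (1 : ℝ) ≤ (d : ℝ) + 1 := by linarith
  have hpw : (1 : ℝ) ≤ ((d : ℝ) + 1) ^ (d + 2) := one_le_pow₀ hd1
  have hpw2 : ((d : ℝ) + 1) ^ 2 ≤ ((d : ℝ) + 1) ^ (d + 2) := pow_le_pow_right₀ hd1 (by omega)
  have hpw1 : ((d : ℝ) + 1) ≤ ((d : ℝ) + 1) ^ (d + 2) := by
    calc ((d : ℝ) + 1) = ((d : ℝ) + 1) ^ 1 := (pow_one _).symm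
      _ ≤ _ := pow_le_pow_right₀ hd1 (by omega)
  have hpwd : (d : ℝ) ^ d ≤ ((d : ℝ) + 1) ^ (d + 2) := by
    calc (d : ℝ) ^ d ≤ ((d : ℝ) + 1) ^ d := pow_le_pow_left₀ hd0 (by linarith) d
      _ ≤ _ := pow_le_pow_right₀ hd1 (by omega)
  obtain ⟨F, hF⟩ : ∃ F : ℝ, F = (d.factorial : ℝ) * ((d : ℝ) + 1) ^ (d + 2) := ⟨_, rfl⟩
  have hFp : ((d : ℝ) + 1) ^ (d + 2) ≤ F := by
    rw [hF]; exact le_mul_of_one_le_left (by positivity) hf
  have hFf : (d.factorial : ℝ) ≤ F := by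
    rw [hF]; exact le_mul_of_one_le_right (by positivity) hpw
  have hFd : (d : ℝ) ≤ F := by linarith [hpw1.trans hFp]
  have hFd2 : (d : ℝ) ^ 2 ≤ F := (pow_le_pow_left₀ hd0 (by linarith) 2).trans (hpw2.trans hFp)
  refine ⟨F, hpw.trans hFp, ?_⟩
  intro L Y Q hL hl
  have hL0 : 0 ≤ L := by linarith
  refine ⟨ALSY_det L Y Q hl, AWDT_tr L Y Q hl, fun i j => ?_, fun i j => ?_, ?_, ?_, fun w => ?_⟩
  · exact (ALSY_inv L Y Q hl hL i j).trans (mul_le_mul_of_nonneg_right hFd hL0)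
  · refine (ALSY_mul_bd Q Y⁻¹ L (d * L) hl.bdP (ALSY_inv L Y Q hl hL) hL0 i j).trans ?_
    have h2 : (d : ℝ) * (L * (d * L)) = d ^ 2 * L ^ 2 := by ring
    rw [h2]
    exact mul_le_mul_of_nonneg_right hFd2 (by positivity)
  · exact (ALSY_detbd Y L hl.bdY).trans (mul_le_mul_of_nonneg_right hFf (by positivity))
  · have h1 := ALSY_detbd Y⁻¹ (d * L) (ALSY_inv L Y Q hl hL)
    rw [Matrix.det_nonsing_inv, Ring.inverse_eq_inv', norm_inv, mul_pow, ← mul_assoc] at h1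
    refine h1.trans (mul_le_mul_of_nonneg_right ?_ (by positivity))
    rw [hF]
    exact mul_le_mul_of_nonneg_left hpwd (by positivity)
  · have h1 := AWDT_low L Y Q hL hl w
    have h2 : 0 ≤ (qf (Q * Y⁻¹) w).im := ALSY_qf L Y Q hl w
    refine h1.trans (mul_le_mul_of_nonneg_right (mul_le_mul_of_nonneg_right hFd2 (by positivity)) h2)

end

end Pool.Agent.VD
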