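import Pool.Agent.helper1.VD.SpecA2

/-!
# Project VD, row `vd:AWE1`: the main error term of the beam is a symbol of size `R^(-1/2+3ζ1)`
-/

set_option autoImplicit false

open scoped ContDiff Topology InnerProductSpace ComplexConjugate ENNReal
open MeasureTheory Filter Set

namespace Pool.Agent.VD

open Pool.Agent.VQ (CH)

noncomputable section

theorem AWE1_const {d : ℕ} (K : ℕ) (N : ℝ) (hN : 1 ≤ N) (c : ℂ) (v : V d) : WS K N ‖c‖ (fun _ : V d => c) v := by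
  refine ⟨contDiffAt_const, fun k _ => ?_⟩
  rcases Nat.eq_zero_or_pos k with rfl | hk
  · rw [norm_iteratedFDeriv_zero]; simp
  · rw [iteratedFDeriv_const_of_ne (by omega)]
    simp only [Pi.zero_apply, norm_zero]
    positivity

theorem AWE1_mono {d : ℕ} {K : ℕ} {N m m' : ℝ} {A : V d → ℂ} {v : V d} (hN : 1 ≤ N) (h : WS K N m A v) (hm : m ≤ m') : WS K N m' A v :=
  ⟨h.1, fun k hk => (h.2 k hk).trans (mul_le_mul_of_nonneg_right hm (by positivity))⟩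

theorem AWE1_proof (hAWRB : AWRB_stmt) (hAHLD : AHLD_stmt) (hAWSY : AWSY_stmt) : AWE1_stmt := by
  intro d Γ _ _ K k B r Kd hF
  obtain ⟨C1, hC1, H1⟩ := hAWRB d Γ K k B r Kd hF
  obtain ⟨CA, hCA, HA⟩ := hAHLD d Γ K k B (r + 1) Kd
  obtain ⟨C0, hC0, HS, -, -⟩ := hAWSY d Kd
  refine ⟨C0 * (C1 + C1 + CA), ?_, ?_⟩
  · nlinarith
  intro G q M m R ζ1 v hG hq1 hq2 hm hM hR hζ0 hζ1 hv
  have hR0 : (0 : ℝ) < R := by linarith
  have hvle : R ^ (-(1 / 2) + ζ1) ≤ 1 := Real.rpow_le_one_of_one_le_of_nonpos hR (by linarith)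
  have hv1 : ‖v‖ ≤ 1 := hv.trans hvle
  obtain ⟨hr3, hdv, hr3a, hr3b, hdv0, hdvb⟩ := H1 G q M m v hG hq1 hq2 hm hM hv1
  obtain ⟨-, hVG, -, -, HB⟩ := HA G hF hG
  have hxr : ‖q.1 + v‖ ≤ r + 1 := (norm_add_le _ _).trans (by linarith)
  obtain ⟨-, HB2, -⟩ := HB (q.1 + v) hxr
  set s : ℝ := R ^ (1 / 2 : ℝ) with hs
  have hs1 : 1 ≤ s := Real.one_le_rpow hR (by norm_num)
  have hpow : ∀ j : ℕ, s ^ j = R ^ ((j : ℝ) / 2) := by
    intro j
    rw [hs, ← Real.rpow_natCast, ← Real.rpow_mul hR0.le]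
    congr 1; ring
  have hm2 : 1 ≤ m ^ 2 := one_le_pow₀ hm
  -- the remainder
  have hA1 : WS Kd s (C1 * m ^ 2 * R ^ (-(3 / 2) + 3 * ζ1)) (Wr3 G q M) v := by
    refine ⟨hr3, fun j hj => ?_⟩
    by_cases hj3 : j ≤ 3
    · refine (hr3a j hj3).trans ?_
      rw [mul_assoc (C1 * m ^ 2)]
      refine mul_le_mul_of_nonneg_left ?_ (by positivity)
      calc ‖v‖ ^ (3 - j) ≤ (R ^ (-(1 / 2) + ζ1)) ^ (3 - j) := pow_le_pow_left₀ (norm_nonneg _) hv _
        _ = R ^ ((-(1 / 2) + ζ1) * (3 - (j : ℝ))) := by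
            rw [← Real.rpow_natCast, ← Real.rpow_mul hR0.le, Nat.cast_sub hj3]; norm_num
        _ ≤ R ^ (-(3 / 2) + 3 * ζ1 + (j : ℝ) / 2) := by
            refine Real.rpow_le_rpow_of_exponent_le hR ?_
            have : 0 ≤ ζ1 * (j : ℝ) := by positivity
            nlinarith
        _ = R ^ (-(3 / 2) + 3 * ζ1) * s ^ j := by rw [hpow, Real.rpow_add hR0]
    · refine (hr3b j hj).trans ?_
      rw [mul_assoc (C1 * m ^ 2)]
      refine le_mul_of_one_le_right (by positivity) ?_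
      rw [hpow, ← Real.rpow_add hR0]
      refine Real.one_le_rpow hR ?_
      have : (4 : ℝ) ≤ j := by exact_mod_cast (by omega : 4 ≤ j)
      linarith
  -- the divergence
  have hA2 : WS Kd s (C1 * m * R ^ (-(1 / 2) + ζ1)) (fun w => Wdv G q M w - Wdv G q M 0) v := by
    refine ⟨hdv.sub contDiffAt_const, fun j hj => ?_⟩
    rcases Nat.eq_zero_or_pos j with rfl | hjp
    · rw [norm_iteratedFDeriv_zero, pow_zero, mul_one]
      exact hdv0.trans (mul_le_mul_of_nonneg_left hv (by positivity))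
    · obtain ⟨i, rfl⟩ : ∃ i, j = i + 1 := ⟨j - 1, by omega⟩
      have e1 : ‖iteratedFDeriv ℝ (i + 1) (fun w => Wdv G q M w - Wdv G q M 0) v‖ = ‖iteratedFDeriv ℝ (i + 1) (Wdv G q M) v‖ := by
        rw [← norm_iteratedFDeriv_fderiv, ← norm_iteratedFDeriv_fderiv]
        congr 2
        funext w
        rw [fderiv_sub_const]
      rw [e1]
      refine (hdvb (i + 1) hj).trans ?_
      rw [mul_assoc (C1 * m)]
      refine le_mul_of_one_le_right (by positivity) ?_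
      rw [hpow, ← Real.rpow_add hR0]
      refine Real.one_le_rpow hR ?_
      push_cast
      have : (0 : ℝ) ≤ i := by positivity
      linarith
  -- the potential
  have hA3 : WS Kd s CA (fun w => VG G (q.1 + w)) v := by
    refine ⟨(hVG.comp (contDiff_const.add contDiff_id)).contDiffAt, fun j hj => ?_⟩
    rw [iteratedFDeriv_comp_add_left]
    refine (HB2 j hj).2.2.1.trans ?_
    exact le_mul_of_one_le_right (by linarith) (one_le_pow₀ hs1)
  have hB1 := (HS s _ _ _ _ v hs1 (norm_nonneg _) (by positivity) (AWE1_const Kd s hs1 (-(R : ℂ)) v) hA1).1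
  have hB2 := (HS s _ _ _ _ v hs1 (norm_nonneg _) (by positivity) (AWE1_const Kd s hs1 (Complex.I / 2) v) hA2).1
  have hB3 := (HS s _ _ _ _ v hs1 (norm_nonneg _) (by linarith) (AWE1_const Kd s hs1 (-(2 * (R : ℂ))⁻¹) v) hA3).1
  have hB12 := (HS s _ _ _ _ v hs1 (by positivity) (by positivity) hB1 hB2).2
  have hB123 := (HS s _ _ _ _ v hs1 (by positivity) (by positivity) hB12 hB3).2
  have e : (fun w => (-(R : ℂ) * Wr3 G q M w + Complex.I / 2 * (Wdv G q M w - Wdv G q M 0)) + -(2 * (R : ℂ))⁻¹ * VG G (q.1 + w)) = Wmn G R q M := by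
    funext w
    unfold Wmn
    rw [div_eq_mul_inv (VG G (q.1 + w))]
    ring
  rw [e] at hB123
  refine AWE1_mono hs1 hB123 ?_
  have n1 : ‖(-(R : ℂ))‖ = R := by rw [norm_neg, Complex.norm_real, Real.norm_of_nonneg hR0.le]
  have n2 : ‖Complex.I / 2‖ = 1 / 2 := by simp
  have n3 : ‖(-(2 * (R : ℂ))⁻¹)‖ = (2 * R)⁻¹ := by
    rw [norm_neg, norm_inv, norm_mul, Complex.norm_real, Real.norm_of_nonneg hR0.le]; simp
  rw [n1, n2, n3]
  set E : ℝ := R ^ (-(1 / 2) + 3 * ζ1) with hE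
  have hE0 : 0 < E := Real.rpow_pos_of_pos hR0 _
  have i1 : R * R ^ (-(3 / 2) + 3 * ζ1) = E := by
    nth_rewrite 1 [← Real.rpow_one R]
    rw [← Real.rpow_add hR0, hE]
    congr 1; ring
  have i2 : R ^ (-(1 / 2) + ζ1) ≤ E := Real.rpow_le_rpow_of_exponent_le hR (by linarith)
  have i3 : R⁻¹ ≤ E := by
    rw [← Real.rpow_neg_one, hE]
    exact Real.rpow_le_rpow_of_exponent_le hR (by linarith)
  have hmm : m ≤ m ^ 2 := by nlinarith
  have j1 : C0 * R * (C1 * m ^ 2 * R ^ (-(3 / 2) + 3 * ζ1)) = C0 * C1 * (m ^ 2 * E) := by rw [← i1]; ring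
  have j2 : C0 * (1 / 2) * (C1 * m * R ^ (-(1 / 2) + ζ1)) ≤ C0 * C1 * (m ^ 2 * E) := by
    have h1 : m * R ^ (-(1 / 2) + ζ1) ≤ m ^ 2 * E := mul_le_mul hmm i2 (by positivity) (by positivity)
    have h2 : 0 ≤ m * R ^ (-(1 / 2) + ζ1) := by positivity
    have h3 : 0 ≤ C0 * C1 := by positivity
    calc C0 * (1 / 2) * (C1 * m * R ^ (-(1 / 2) + ζ1)) = C0 * C1 * (1 / 2 * (m * R ^ (-(1 / 2) + ζ1))) := by ring
      _ ≤ C0 * C1 * (m ^ 2 * E) := mul_le_mul_of_nonneg_left (by linarith) h3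
  have j3 : C0 * (2 * R)⁻¹ * CA ≤ C0 * CA * (m ^ 2 * E) := by
    have h1 : (2 * R)⁻¹ ≤ R⁻¹ := by
      apply inv_anti₀ hR0; linarith
    have h2 : E ≤ m ^ 2 * E := le_mul_of_one_le_left hE0.le hm2
    calc C0 * (2 * R)⁻¹ * CA = C0 * CA * (2 * R)⁻¹ := by ring
      _ ≤ C0 * CA * (m ^ 2 * E) := mul_le_mul_of_nonneg_left (by linarith) (by positivity)
  calc C0 * R * (C1 * m ^ 2 * R ^ (-(3 / 2) + 3 * ζ1)) + C0 * (1 / 2) * (C1 * m * R ^ (-(1 / 2) + ζ1)) + C0 * (2 * R)⁻¹ * CA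
      ≤ C0 * C1 * (m ^ 2 * E) + C0 * C1 * (m ^ 2 * E) + C0 * CA * (m ^ 2 * E) := by rw [j1]; linarith
    _ = C0 * (C1 + C1 + CA) * m ^ 2 * E := by ring

end

end Pool.Agent.VD
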