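import Pool.Agent.helper47.VD.SpecA1

/-!
# Project VD (MP_07c750_an), block A1, row ABRE: the integrals of the profile
-/

set_option autoImplicit false

open scoped ContDiff Topology InnerProductSpace ComplexConjugate ENNReal
open MeasureTheory Filter Set

namespace Pool.Agent.VD

open Pool.Agent.VQ (CH)

noncomputable section

theorem ABRE_gi (d : ℕ) (b : ℝ) (hb : 0 < b) : Integrable (fun v : V d => Real.exp (-(b * ‖v‖ ^ 2))) := by
  have h := GaussianFourier.integrable_cexp_neg_mul_sq_norm_add (V := V d) (b := (b : ℂ)) (by simpa using hb) 0 0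
  have h2 := h.re
  refine h2.congr (Eventually.of_forall fun v => ?_)
  simp only [zero_mul, add_zero]
  have h3 : (-(b : ℂ) * (‖v‖ : ℂ) ^ 2) = ((-(b * ‖v‖ ^ 2) : ℝ) : ℂ) := by push_cast; ring
  show RCLike.re (Complex.exp (-(b : ℂ) * (‖v‖ : ℂ) ^ 2)) = _
  rw [h3, ← Complex.ofReal_exp]
  exact Complex.ofReal_re _

theorem ABRE_ge (d : ℕ) (b : ℝ) (hb : 0 < b) : ∫ v : V d, Real.exp (-(b * ‖v‖ ^ 2)) = (Real.pi / b) ^ ((d : ℝ) / 2) := by
  have h := GaussianFourier.integral_rexp_neg_mul_sq_norm (V := V d) hb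
  rw [finrank_euclideanSpace, Fintype.card_fin] at h
  rw [← h]
  refine integral_congr_ae (Eventually.of_forall fun v => ?_)
  show Real.exp (-(b * ‖v‖ ^ 2)) = Real.exp (-b * ‖v‖ ^ 2)
  rw [neg_mul]

theorem ABRE_eps (d : ℕ) (ζ : ℝ) (hζ : 0 < ζ) : ∃ R0 : ℝ, 1 ≤ R0 ∧ ∀ R : ℝ, R0 ≤ R → Real.exp (-(R ^ (2 * ζ) / 4)) * (2 : ℝ) ^ ((d : ℝ) / 2) ≤ R ^ (-(1 / 2) : ℝ) := by
  have h1 := tendsto_rpow_mul_exp_neg_mul_atTop_nhds_zero (1 / (4 * ζ)) (1 / 4) (by norm_num)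
  have h2 : Tendsto (fun R : ℝ => R ^ (2 * ζ)) atTop atTop := tendsto_rpow_atTop (by positivity)
  have h3 := (h1.comp h2).const_mul ((2 : ℝ) ^ ((d : ℝ) / 2))
  rw [mul_zero] at h3
  have h4 := (h3.eventually (gt_mem_nhds zero_lt_one)).and (eventually_ge_atTop 1)
  obtain ⟨R0, hR0⟩ := eventually_atTop.1 h4
  refine ⟨max R0 1, le_max_right _ _, fun R hR => ?_⟩
  obtain ⟨h5, h6⟩ := hR0 R ((le_max_left _ _).trans hR)
  have hR0 : 0 < R := by linarith
  simp only [Function.comp] at h5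
  rw [← Real.rpow_mul hR0.le] at h5
  have h7 : 2 * ζ * (1 / (4 * ζ)) = 1 / 2 := by
    field_simp
    norm_num
  rw [h7] at h5
  rw [Real.rpow_neg hR0.le, ← one_div, le_div_iff₀ (Real.rpow_pos_of_pos hR0 _)]
  have h8 : -(1 / 4) * R ^ (2 * ζ) = -(R ^ (2 * ζ) / 4) := by ring
  rw [h8] at h5
  linarith

theorem ABRE_b0 {d : ℕ} {ch : ℝ → ℝ} (hch : CH ch) (ζ R : ℝ) (v : V d) : 0 ≤ b0 ch ζ R v ∧ b0 ch ζ R v ≤ Real.exp (-(R / 2 * ‖v‖ ^ 2)) := by
  unfold b0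
  have h1 := hch.bd (R ^ (1 - 2 * ζ) * ‖v‖ ^ 2)
  have h2 : -(R * ‖v‖ ^ 2 / 2) = -(R / 2 * ‖v‖ ^ 2) := by ring
  rw [h2]
  exact ⟨mul_nonneg (Real.exp_pos _).le h1.1, mul_le_of_le_one_right (Real.exp_pos _).le h1.2⟩

theorem ABRE_cont {d : ℕ} {ch : ℝ → ℝ} (hch : CH ch) (ζ R : ℝ) : Continuous (fun v : V d => b0 ch ζ R v) := by
  unfold b0
  have hn : Continuous fun v : V d => ‖v‖ ^ 2 := continuous_norm.pow 2
  refine Continuous.mul ?_ (hch.smooth.continuous.comp (continuous_const.mul hn))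
  exact Real.continuous_exp.comp ((continuous_const.mul hn).div_const 2).neg

theorem ABRE_exp2 {d : ℕ} (R : ℝ) (v : V d) : Real.exp (-(R / 2 * ‖v‖ ^ 2)) ^ 2 = Real.exp (-(R * ‖v‖ ^ 2)) := by
  rw [← Real.exp_nat_mul]
  congr 1
  push_cast
  ring

theorem ABRE_proof : ABRE_stmt := by
  intro d ch ζ hch hζ hζ8
  obtain ⟨R0, hR01, hR0⟩ := ABRE_eps d ζ hζ
  refine ⟨R0, hR01, fun R hR => ?_⟩
  have hR1 : 1 ≤ R := hR01.trans hR
  have hRp : 0 < R := by linarith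
  have hi1 := ABRE_gi d (R / 2) (by positivity)
  have hi2 := ABRE_gi d R hRp
  have he1 := ABRE_ge d (R / 2) (by positivity)
  have he2 := ABRE_ge d R hRp
  have hpi : Real.pi / (R / 2) = 2 * Real.pi / R := by field_simp
  rw [hpi] at he1
  have hI1 : Integrable (fun v : V d => b0 ch ζ R v) := by
    refine hi1.mono' (ABRE_cont hch ζ R).aestronglyMeasurable (Eventually.of_forall fun v => ?_)
    rw [Real.norm_of_nonneg (ABRE_b0 hch ζ R v).1]
    exact (ABRE_b0 hch ζ R v).2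
  have hsq : ∀ v : V d, b0 ch ζ R v ^ 2 ≤ Real.exp (-(R * ‖v‖ ^ 2)) := by
    intro v
    rw [← ABRE_exp2]
    exact pow_le_pow_left₀ (ABRE_b0 hch ζ R v).1 (ABRE_b0 hch ζ R v).2 2
  have hI2 : Integrable (fun v : V d => b0 ch ζ R v ^ 2) := by
    refine hi2.mono' ((ABRE_cont hch ζ R).pow 2).aestronglyMeasurable (Eventually.of_forall fun v => ?_)
    rw [Real.norm_of_nonneg (sq_nonneg _)]
    exact hsq v
  have hup : bR d ch ζ R ≤ (Real.pi / R) ^ ((d : ℝ) / 2) := by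
    rw [← he2]
    exact integral_mono hI2 hi2 hsq
  have hgk0 : ∀ v : V d, 0 ≤ gk ζ R v := by
    intro v
    unfold gk
    exact indicator_nonneg (fun _ _ => (Real.exp_pos _).le) v
  have hgk1 : ∀ v : V d, gk ζ R v ≤ Real.exp (-(R / 2 * ‖v‖ ^ 2)) := by
    intro v
    unfold gk
    have h2 : -(R * ‖v‖ ^ 2 / 2) = -(R / 2 * ‖v‖ ^ 2) := by ring
    refine (indicator_le_self' (fun _ _ => (Real.exp_pos _).le) v).trans (le_of_eq ?_)
    rw [h2]
  have hgkm : AEStronglyMeasurable (fun v : V d => gk ζ R v ^ 2) volume := by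
    have h1 : Measurable (fun v : V d => gk ζ R v) := by
      unfold gk
      refine Measurable.indicator ?_ Metric.isClosed_closedBall.measurableSet
      fun_prop
    exact (h1.pow_const 2).aestronglyMeasurable
  have hgk2 : ∀ v : V d, gk ζ R v ^ 2 ≤ Real.exp (-(R * ‖v‖ ^ 2)) := by
    intro v
    rw [← ABRE_exp2]
    exact pow_le_pow_left₀ (hgk0 v) (hgk1 v) 2
  have hI3 : Integrable (fun v : V d => gk ζ R v ^ 2) := by
    refine hi2.mono' hgkm (Eventually.of_forall fun v => ?_)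
    rw [Real.norm_of_nonneg (sq_nonneg _)]
    exact hgk2 v
  refine ⟨hI1, hI2, ?_, hup, ?_, ?_, hgk0, hI3, ?_⟩
  · intro hd
    subst hd
    have h1 : ∀ v : V 0, b0 ch ζ R v = 1 := by
      intro v
      have h2 : v = 0 := Subsingleton.elim _ _
      rw [h2]
      unfold b0
      rw [norm_zero]
      have h3 : ch (R ^ (1 - 2 * ζ) * 0 ^ 2) = 1 := hch.one _ (by norm_num)
      rw [h3]
      norm_num
    have h4 := ABRE_ge 0 R hRp
    have h5 : bR 0 ch ζ R = ∫ v : V 0, Real.exp (-(R * ‖v‖ ^ 2)) := by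
      unfold bR
      refine integral_congr_ae (Eventually.of_forall fun v => ?_)
      have h2 : v = 0 := Subsingleton.elim _ _
      show b0 ch ζ R v ^ 2 = Real.exp (-(R * ‖v‖ ^ 2))
      rw [h1, h2, norm_zero]
      norm_num
    rw [h5, h4]
    norm_num
  · have hpt : ∀ v : V d, Real.exp (-(R * ‖v‖ ^ 2)) - Real.exp (-(R ^ (2 * ζ) / 4)) * Real.exp (-(R / 2 * ‖v‖ ^ 2)) ≤ b0 ch ζ R v ^ 2 := by
      intro v
      have hb : b0 ch ζ R v = Real.exp (-(R / 2 * ‖v‖ ^ 2)) * ch (R ^ (1 - 2 * ζ) * ‖v‖ ^ 2) := by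
        unfold b0
        congr 2
        ring
      rcases le_or_gt (R ^ (1 - 2 * ζ) * ‖v‖ ^ 2) (1 / 2) with h1 | h1
      · rw [hb, hch.one _ h1, mul_one, ABRE_exp2]
        have h2 : 0 ≤ Real.exp (-(R ^ (2 * ζ) / 4)) * Real.exp (-(R / 2 * ‖v‖ ^ 2)) := by positivity
        linarith
      · have h2 : R ^ (2 * ζ) / 2 ≤ R * ‖v‖ ^ 2 := by
          have h3 : R * ‖v‖ ^ 2 = R ^ (2 * ζ) * (R ^ (1 - 2 * ζ) * ‖v‖ ^ 2) := by
            rw [← mul_assoc, ← Real.rpow_add hRp]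
            have h4 : 2 * ζ + (1 - 2 * ζ) = 1 := by ring
            rw [h4, Real.rpow_one]
          rw [h3]
          have h5 : 0 < R ^ (2 * ζ) := Real.rpow_pos_of_pos hRp _
          nlinarith
        have h6 : Real.exp (-(R * ‖v‖ ^ 2)) ≤ Real.exp (-(R ^ (2 * ζ) / 4)) * Real.exp (-(R / 2 * ‖v‖ ^ 2)) := by
          rw [← Real.exp_add]
          exact Real.exp_le_exp.2 (by linarith)
        have h7 : 0 ≤ b0 ch ζ R v ^ 2 := sq_nonneg _
        linarith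
    have h8 : ∫ v : V d, (Real.exp (-(R * ‖v‖ ^ 2)) - Real.exp (-(R ^ (2 * ζ) / 4)) * Real.exp (-(R / 2 * ‖v‖ ^ 2))) ≤ bR d ch ζ R :=
      integral_mono (hi2.sub (hi1.const_mul _)) hI2 hpt
    rw [integral_sub hi2 (hi1.const_mul _), integral_const_mul, he1, he2] at h8
    have h9 : (2 * Real.pi / R) ^ ((d : ℝ) / 2) = (2 : ℝ) ^ ((d : ℝ) / 2) * (Real.pi / R) ^ ((d : ℝ) / 2) := by
      rw [mul_div_assoc, Real.mul_rpow (by norm_num) (by positivity)]
    rw [h9] at h8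
    have h10 := hR0 R hR
    have h11 : 0 ≤ (Real.pi / R) ^ ((d : ℝ) / 2) := Real.rpow_nonneg (by positivity) _
    have h12 := mul_le_mul_of_nonneg_right h10 h11
    nlinarith
  · rw [← he1]
    exact integral_mono hI1 hi1 fun v => (ABRE_b0 hch ζ R v).2
  · rw [← he2]
    exact integral_mono hI3 hi2 hgk2

end

end Pool.Agent.VD
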