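import Pool.Agent.helper74.VD.SpecA3

/-!
# Project VD (MP_07c750_an), block A3, row AFMD: the families of the project
-/

set_option autoImplicit false

open scoped ContDiff Topology InnerProductSpace ComplexConjugate ENNReal
open MeasureTheory Filter Set

namespace Pool.Agent.VD

open Pool.Agent.VQ (CH)

noncomputable section

/-- multiplication of a packet with a constant, larger exponents -/
theorem AFMD_smul {d K : ℕ} {η η' m m' R : ℝ} {q : P d} {f : V d → ℂ} (c : ℂ) (hR : 1 ≤ R) (hη : η ≤ η') (hm : 0 ≤ m) (hm' : ‖c‖ * m ≤ m')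
    (h : Pk K η m R q f) : Pk K η' m' R q (fun w => c * f w) := by
  obtain ⟨A, h1, h2, h3, h4⟩ := h
  refine ⟨fun v => c • A v, h1.const_smul c, fun v hv => (h2 v ?_).trans ?_, fun k hk v => ?_, fun w => ?_⟩
  · intro h5
    apply hv
    show c • A v = 0
    rw [h5, smul_zero]
  · exact Real.rpow_le_rpow_of_exponent_le hR (by linarith)
  · have h5 : R ^ (1 / 2 + η) ≤ R ^ (1 / 2 + η') := Real.rpow_le_rpow_of_exponent_le hR (by linarith)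
    have h6 : 0 ≤ R ^ (1 / 2 + η) := Real.rpow_nonneg (by linarith) _
    have h7 : iteratedFDeriv ℝ k (c • A) v = c • iteratedFDeriv ℝ k A v :=
      iteratedFDeriv_const_smul_apply ((h1.of_le (by exact_mod_cast le_top)).contDiffAt)
    have h8 : (fun v => c • A v) = c • A := rfl
    rw [h8, h7, norm_smul]
    calc ‖c‖ * ‖iteratedFDeriv ℝ k A v‖ ≤ ‖c‖ * (m * (R ^ (1 / 2 + η)) ^ k) := mul_le_mul_of_nonneg_left (h3 k hk v) (norm_nonneg _)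
      _ = (‖c‖ * m) * (R ^ (1 / 2 + η)) ^ k := by ring
      _ ≤ m' * (R ^ (1 / 2 + η')) ^ k := mul_le_mul hm' (pow_le_pow_left₀ h6 h5 k) (pow_nonneg h6 k) ((mul_nonneg (norm_nonneg _) hm).trans hm')
  · show c * f w = Complex.exp (((R * ⟪q.2, w - q.1⟫_ℝ : ℝ) : ℂ) * Complex.I) * (c • A (w - q.1))
    rw [h4 w, smul_eq_mul]
    ring

theorem AFMD_win {R : ℝ} (hR : 65536 ≤ R) : 2 * R ^ (-(1 / 4) : ℝ) ≤ 1 / 8 := by
  have h1 : R ^ (-(1 / 4) : ℝ) ≤ (65536 : ℝ) ^ (-(1 / 4) : ℝ) :=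
    Real.rpow_le_rpow_of_nonpos (by norm_num) hR (by norm_num)
  have h2 : (65536 : ℝ) ^ (-(1 / 4) : ℝ) = 1 / 16 := by
    have h3 : (65536 : ℝ) = (1 / 16 : ℝ) ^ (-4 : ℝ) := by
      rw [Real.rpow_neg (by norm_num)]
      norm_num
    rw [h3, ← Real.rpow_mul (by norm_num)]
    norm_num
  rw [h2] at h1
  linarith

theorem AFMD_lag (d : ℕ) (L : ℝ) (hL : 1 ≤ L) : Lag L (1 : MC d) (Complex.I • 1) := by
  refine ⟨?_, ?_, ?_, ?_⟩
  · simp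
  · simp only [Matrix.conjTranspose_one, Matrix.conjTranspose_smul, one_mul, mul_one, Complex.star_def, Complex.conj_I]
    rw [← sub_smul]
    congr 1
    ring
  · intro i j
    rw [Matrix.one_apply]
    split_ifs
    · simpa using hL
    · simp; linarith
  · intro i j
    rw [Matrix.smul_apply, Matrix.one_apply]
    split_ifs
    · simpa using hL
    · simp; linarith

theorem AFMD_cont {d : ℕ} (F : (P d × ℝ) × V d → ℂ) (hF : Continuous F) (t : ℝ) : Continuous fun x : P d × V d => F ((x.1, t), x.2) :=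
  hF.comp ((continuous_fst.prodMk continuous_const).prodMk continuous_snd)

theorem AFMD_cmul {d : ℕ} (F : P d × V d → ℂ) (hF : Continuous F) (χ : V d → ℝ) (hχ : Continuous χ) (a : ℝ) : Continuous fun x : P d × V d => ((χ x.1.1 * a : ℝ) : ℂ) * F x :=
  (Complex.continuous_ofReal.comp ((hχ.comp (continuous_fst.comp continuous_fst)).mul continuous_const)).mul hF

theorem AFMD_proof (hABMP : ABMP_stmt) (hABMR : ABMR_stmt) (hAQSD : AQSD_stmt) (hABRD : ABRD_stmt) : AFMD_stmt := by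
  intro d Γ _ _ K k B r0 χ hK hχ
  obtain ⟨C1, hC1, hB⟩ := hABMP d Γ K k B r0 hK
  refine ⟨C1 + 8, by linarith, ?_⟩
  intro ch Kd ζ ζ1 M hch hζ hζζ hCζ
  have hζ1 : 0 < ζ1 := by linarith
  have hζ8 : ζ1 ≤ 1 / 8 := by nlinarith
  have hC1ζ : C1 * ζ1 ≤ 1 := by nlinarith
  have hRg : Rg C1 0 ζ ζ1 := ⟨le_rfl, hζ, hζζ, by rw [mul_zero]; exact hζ1.le, hC1ζ⟩
  obtain ⟨R1, hR1, hB1⟩ := hB ch Kd 0 ζ ζ1 ζ1 M hch hRg le_rfl hC1ζ
  obtain ⟨R2, hR2, hQ⟩ := hAQSD d Γ K k B r0 χ ch ζ hK hχ hch hζ (by linarith)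
  obtain ⟨R3, hR3, hA⟩ := hABRD d ch ζ hch hζ (by linarith)
  refine ⟨R1 + R2 + R3 + 65536, by linarith, ?_⟩
  intro R t G Φ hR hO ht
  have hRa : R1 ≤ R := by linarith
  have hRb : R2 ≤ R := by linarith
  have hRc : R3 ≤ R := by linarith
  have hRd : 65536 ≤ R := by linarith
  have hRe : 1 ≤ R := by linarith
  have hR0 : 0 < R := by linarith
  obtain ⟨-, -, -, -, -, -, -, -, c0, c1, -⟩ := hA R hRc
  obtain ⟨q1, -⟩ := hQ R G hRb hO.cls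
  have hlag : Lag (R ^ (0 : ℝ)) (1 : MC d) (Complex.I • 1) := AFMD_lag d _ (by rw [Real.rpow_zero])
  obtain ⟨-, b2, -, -, -, b6, -, -⟩ := hABMR d Γ K k B G Φ _ 1 (Complex.I • 1) ch ζ1 R hO hlag hch hζ1 hζ8 hRe
  have hη : C1 * ζ1 ≤ (C1 + 8) * ζ1 := by nlinarith
  have hc : ∀ p : P d, ‖((χ p.1 * cR d ch ζ R : ℝ) : ℂ)‖ ≤ R ^ (3 * (d : ℝ) / 4) := by
    intro p
    have h1 := hχ.bd p.1
    rw [Complex.norm_real, Real.norm_of_nonneg (mul_nonneg h1.1 c0.le)]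
    calc χ p.1 * cR d ch ζ R ≤ 1 * cR d ch ζ R := mul_le_mul_of_nonneg_right h1.2 c0.le
      _ = cR d ch ζ R := one_mul _
      _ ≤ _ := c1
  have hx : ∀ p : P d, ‖((χ p.1 : ℝ) : ℂ)‖ ≤ 1 := by
    intro p
    have h1 := hχ.bd p.1
    rw [Complex.norm_real, Real.norm_of_nonneg h1.1]
    exact h1.2
  have hpow : ∀ a b : ℝ, a ≤ b → ∀ x y : ℝ, 0 ≤ x → x ≤ R ^ y → x * R ^ a ≤ R ^ (y + b) := by
    intro a b hab x y hx0 hxy
    rw [Real.rpow_add hR0]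
    exact mul_le_mul hxy (Real.rpow_le_rpow_of_exponent_le hRe hab) (Real.rpow_nonneg hR0.le _) (Real.rpow_nonneg hR0.le _)
  have hmem : ∀ y ∈ GW Γ G r0 2 R, ‖y.2.1‖ ≤ r0 ∧ |Ep G y.2| ≤ 1 / 4 := by
    intro y hy
    have h1 := AFMD_win hRd
    exact ⟨hy.1, hy.2.trans (by linarith)⟩
  have hχc : Continuous χ := hχ.smooth.continuous
  have ht0 : |(0 : ℝ)| ≤ 1 := by simp
  have hcP : ∀ (s : ℝ) (γ : Γ), Continuous fun x : P d × V d => fP G Φ χ ch ζ ζ1 R s ((γ, x.1) : YS Γ d) x.2 := by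
    intro s γ
    have h1 : Continuous fun x : P d × V d => bt G Φ ch ζ1 R 1 (Complex.I • 1) x.1 s x.2 :=
      AFMD_cont (fun x : (P d × ℝ) × V d => bt G Φ ch ζ1 R 1 (Complex.I • 1) x.1.1 x.1.2 x.2) b2 s
    exact AFMD_cmul (fun x : P d × V d => bt G Φ ch ζ1 R 1 (Complex.I • 1) x.1 s x.2) h1 χ hχc (cR d ch ζ R)
  have hcG : ∀ γ : Γ, Continuous fun x : P d × V d => fG G χ ch ζ R ((γ, x.1) : YS Γ d) x.2 := by
    intro γ
    have h1 := q1 (1 : Γ)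
    have h2 : (fun x : P d × V d => fG G χ ch ζ R ((γ, x.1) : YS Γ d) x.2) = fun x : P d × V d => Gp G χ ch ζ R (((1 : Γ), x.1) : YS Γ d) x.2 := by
      funext x
      unfold fG Gp
      rw [inv_one, one_smul]
    rw [h2]
    exact h1
  refine ⟨⟨hcP t, fun γ y => rfl, ?_⟩, ⟨?_, fun γ y => rfl, ?_⟩, ⟨hcG, fun γ y => rfl, ?_⟩, ⟨?_, fun γ y => rfl, ?_⟩, fun y z => rfl, fun y z => rfl⟩
  · intro y hy
    obtain ⟨h1, h2⟩ := hmem y hy
    obtain ⟨p1, -⟩ := hB1 R t G Φ y.2 1 (Complex.I • 1) hRa hO h1 h2 ht hlag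
    have h3 := hpow _ _ hη _ _ (norm_nonneg _) (hc y.2)
    have h5 : fP G Φ χ ch ζ ζ1 R t y = fun w => ((χ y.2.1 * cR d ch ζ R : ℝ) : ℂ) * bt G Φ ch ζ1 R 1 (Complex.I • 1) y.2 t w := by
      funext w
      unfold fP
      rfl
    rw [h5]
    exact AFMD_smul ((χ y.2.1 * cR d ch ζ R : ℝ) : ℂ) hRe hη (Real.rpow_nonneg hR0.le _) h3 p1
  · intro γ
    have h1 : Continuous fun x : P d × V d => Eb G Φ ch ζ1 R 1 (Complex.I • 1) x.1 t x.2 :=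
      AFMD_cont (fun x : (P d × ℝ) × V d => Eb G Φ ch ζ1 R 1 (Complex.I • 1) x.1.1 x.1.2 x.2) b6 t
    exact AFMD_cmul (fun x : P d × V d => Eb G Φ ch ζ1 R 1 (Complex.I • 1) x.1 t x.2) h1 χ hχc (cR d ch ζ R)
  · intro y hy
    obtain ⟨h1, h2⟩ := hmem y hy
    obtain ⟨-, p2, -⟩ := hB1 R t G Φ y.2 1 (Complex.I • 1) hRa hO h1 h2 ht hlag
    have h3 := hpow (-(1 / 2) + C1 * ζ1) (-(1 / 2) + (C1 + 8) * ζ1) (by linarith) _ _ (norm_nonneg _) (hc y.2)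
    have h4 : 3 * (d : ℝ) / 4 + (-(1 / 2) + (C1 + 8) * ζ1) = 3 * (d : ℝ) / 4 - 1 / 2 + (C1 + 8) * ζ1 := by ring
    rw [h4] at h3
    have h5 : fE G Φ χ ch ζ ζ1 R t y = fun w => ((χ y.2.1 * cR d ch ζ R : ℝ) : ℂ) * Eb G Φ ch ζ1 R 1 (Complex.I • 1) y.2 t w := by
      funext w
      unfold fE
      rfl
    rw [h5]
    exact AFMD_smul ((χ y.2.1 * cR d ch ζ R : ℝ) : ℂ) hRe hη (Real.rpow_nonneg hR0.le _) h3 p2
  · intro y hy
    obtain ⟨h1, h2⟩ := hmem y hy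
    obtain ⟨-, -, p3, -⟩ := hB1 R 0 G Φ y.2 1 (Complex.I • 1) hRa hO h1 h2 ht0 hlag
    rw [hO.flow.zero]
    have h5 : fG G χ ch ζ R y = fun w => ((χ y.2.1 : ℝ) : ℂ) * pkt G ch ζ R y.2 w := by
      funext w
      unfold fG
      rfl
    rw [h5]
    refine AFMD_smul ((χ y.2.1 : ℝ) : ℂ) hRe hη (Real.rpow_nonneg hR0.le _) ?_ p3
    calc ‖((χ y.2.1 : ℝ) : ℂ)‖ * R ^ (3 * (d : ℝ) / 4 + C1 * ζ1) ≤ 1 * R ^ (3 * (d : ℝ) / 4 + C1 * ζ1) := mul_le_mul_of_nonneg_right (hx y.2) (Real.rpow_nonneg hR0.le _)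
      _ ≤ R ^ (3 * (d : ℝ) / 4 + (C1 + 8) * ζ1) := by
        rw [one_mul]
        exact Real.rpow_le_rpow_of_exponent_le hRe (by linarith)
  · intro γ
    exact (hcP 0 γ).sub (hcG γ)
  · intro y hy
    obtain ⟨h1, h2⟩ := hmem y hy
    obtain ⟨-, -, -, p4, -⟩ := hB1 R 0 G Φ y.2 1 (Complex.I • 1) hRa hO h1 h2 ht0 hlag
    rw [hO.flow.zero]
    have h3 : ‖((χ y.2.1 : ℝ) : ℂ)‖ * R ^ (-M) ≤ R ^ (-M) := by
      calc ‖((χ y.2.1 : ℝ) : ℂ)‖ * R ^ (-M) ≤ 1 * R ^ (-M) := mul_le_mul_of_nonneg_right (hx y.2) (Real.rpow_nonneg hR0.le _)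
        _ = _ := one_mul _
    have h4 := AFMD_smul ((χ y.2.1 : ℝ) : ℂ) hRe hη (Real.rpow_nonneg hR0.le _) h3 p4
    have h5 : (fun w => fP G Φ χ ch ζ ζ1 R 0 y w - fG G χ ch ζ R y w) = fun w => ((χ y.2.1 : ℝ) : ℂ) * ((cR d ch ζ R : ℂ) * bt G Φ ch ζ1 R 1 (Complex.I • 1) y.2 0 w - pkt G ch ζ R y.2 w) := by
      funext w
      unfold fP fG
      push_cast
      ring
    rw [h5]
    exact h4

end

end Pool.Agent.VD
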