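import Pool.Agent.helper80.VD.SpecF

/-!
# Project VD (MP_07c750_an), block F, row GDB: uniform bounds of the derivatives of the geodesic flow
-/

set_option autoImplicit false

open scoped ContDiff Topology InnerProductSpace
open MeasureTheory Filter Set

namespace Pool.Agent.VD

noncomputable section

theorem GDB_proof (hGCF : GCF_stmt) (hGUX : GUX_stmt) (hGUN : GUN_stmt) (hFDB : FDB_stmt) (hGXH : GXH_stmt) : GDB_stmt := by
  intro d Γ _ _ K k B hK m n T
  obtain ⟨m', -, hm'⟩ := hGCF d Γ K k B hK m T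
  choose c hc using fun j : ℕ => hGUX d B m' j m'
  obtain ⟨b, hb⟩ : ∃ b : ℝ, ∀ j ≤ n, c j ≤ b := by
    refine ⟨∑ j ∈ Finset.range (n + 1), |c j|, fun j hj => ?_⟩
    exact (le_abs_self _).trans (Finset.single_le_sum (f := fun j => |c j|) (fun i _ => abs_nonneg _) (Finset.mem_range.2 (by omega)))
  obtain ⟨C, hC⟩ := hFDB (P d) n T b
  refine ⟨max (max C b) m', ?_⟩
  intro G Φ hG hΦ p t hp hn ht j hj
  obtain ⟨hfl, -, -, -⟩ := hGUN d G Φ hG.met hΦ
  obtain ⟨-, hXs, -⟩ := hGXH d G hG.met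
  have hb1 : ∀ s, |s| ≤ T → ∀ i ≤ n, ‖iteratedFDeriv ℝ i (XH G) (Φ s p)‖ ≤ b := by
    intro s hs i hi
    obtain ⟨h1, h2⟩ := hm' G Φ hG hΦ p s hp hn hs
    exact (hc i G hG.met hG.lo hG.bd (Φ s p) h1 h2).trans (hb i hi)
  refine ⟨?_, (hb1 t ht j hj).trans ((le_max_right _ _).trans (le_max_left _ _))⟩
  rcases Nat.eq_zero_or_pos j with h0 | h0
  · subst h0
    rw [norm_iteratedFDeriv_zero]
    obtain ⟨h1, h2⟩ := hm' G Φ hG hΦ p t hp hn ht
    exact (Prod.norm_def (Φ t p) ▸ max_le h1 h2).trans (le_max_right _ _)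
  · exact (hC (XH G) Φ p hXs hfl hΦ.smooth hb1 t ht j h0 hj).trans ((le_max_left _ _).trans (le_max_left _ _))

end

end Pool.Agent.VD
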