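import Pool.Agent.helper80.VD.SpecF

/-!
# Project VD (MP_07c750_an), block F, row GEQ: equivariance of the geodesic flow
-/

set_option autoImplicit false

open scoped ContDiff Topology InnerProductSpace
open MeasureTheory Filter Set

namespace Pool.Agent.VD

noncomputable section

theorem GEQ_proof (hGUN : GUN_stmt) (hGLF : GLF_stmt) (hGHL : GHL_stmt) : GEQ_stmt := by
  intro d Γ _ _ G Φ hG hs hi hΦ γ t p
  obtain ⟨-, hun, -, -⟩ := hGUN d G Φ hG hΦ
  obtain ⟨-, -, hsm, -⟩ := hGLF d Γ hs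
  obtain ⟨-, hX⟩ := hGHL d Γ G hG hs hi
  have h1 : ∀ s, HasDerivAt (fun s => (lft γ (Φ s p) : P d)) (XH G (lft γ (Φ s p))) s := by
    intro s
    have h2 : HasFDerivAt (lft γ : P d → P d) (fderiv ℝ (lft γ : P d → P d) (Φ s p)) (Φ s p) :=
      ((hsm γ).differentiable (by simp) _).hasFDerivAt
    have h3 := h2.comp_hasDerivAt s (hΦ.deriv s p)
    rw [hX γ (Φ s p)] at h3
    exact h3
  have h4 := hun (fun s => (lft γ (Φ s p) : P d)) h1 t
  simp only [hΦ.zero] at h4
  exact h4.symm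

end

end Pool.Agent.VD
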