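import Pool.Agent.helper80.VD.SpecG

/-!
# Project VD (MP_07c750_an), block G, row GNG: curvature bounds everywhere
-/

set_option autoImplicit false

open scoped ContDiff Topology InnerProductSpace
open MeasureTheory Filter Set

namespace Pool.Agent.VD

noncomputable section

/-- polarisation -/
theorem GNG_pol (hGRI : GRI_stmt) (d : ℕ) (G : V d → V d →L[ℝ] V d) (hG : IsMetric G) (x u v w : V d) :
    2 * ⟪G x (Riem G x u v v), w⟫_ℝ = ⟪G x (Riem G x (u + w) v v), u + w⟫_ℝ - ⟪G x (Riem G x u v v), u⟫_ℝ - ⟪G x (Riem G x w v v), w⟫_ℝ := by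
  obtain ⟨h1, -, -, -, h5, -, -⟩ := hGRI d G hG
  have h6 := h1 x u w v v 1
  rw [one_smul, one_smul] at h6
  have h7 := h5 x u v w
  rw [h6, map_add, inner_add_left, inner_add_right, inner_add_right]
  linarith

theorem GNG_proof (hGLF : GLF_stmt) (hGNT : GNT_stmt) (hGUR : GUR_stmt) (hGNR : GNR_stmt) (hGRI : GRI_stmt) : GNG_stmt := by
  intro d Γ _ _ K k B hK
  obtain ⟨r, hr⟩ := hK.compact.isBounded.exists_norm_le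
  obtain ⟨m, hm⟩ := exists_nat_ge r
  have hKm : ∀ x ∈ K, ‖x‖ ≤ m := fun x hx => (hr x hx).trans hm
  obtain ⟨C1, hC1⟩ := hGUR d B m
  obtain ⟨C2, hC2, hGN⟩ := hGNR d B m
  obtain ⟨D, hD⟩ : ∃ D : ℝ, D = |B m 0| * |C1| * C2 ^ 2 + 1 := ⟨_, rfl⟩
  have hD1 : 1 ≤ D := by
    rw [hD]
    have : 0 ≤ |B m 0| * |C1| * C2 ^ 2 := by positivity
    linarith
  have hD2 : |B m 0| * |C1| * C2 ^ 2 ≤ D := by rw [hD]; linarith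
  refine ⟨D, hD1, ?_⟩
  intro G hG
  have hmet := hG.met
  have hn0 : ∀ x u : V d, 0 ≤ ⟪G x u, u⟫_ℝ := by
    intro x u
    rcases eq_or_ne u 0 with h | h
    · rw [h, inner_zero_right]
    · exact (hmet.pos x u h).le
  -- bounds on K
  have hn : ∀ x ∈ K, ∀ u : V d, ‖u‖ ^ 2 ≤ C2 * ⟪G x u, u⟫_ℝ := by
    intro x hx u
    obtain ⟨-, -, -, h⟩ := hGN G hmet hG.lo hG.bd ((x, 0) : P d) (hKm x hx)
    exact (h u).1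
  have hGx : ∀ x ∈ K, ‖G x‖ ≤ |B m 0| := by
    intro x hx
    have h := hG.bd m 0 x (hKm x hx)
    rw [norm_iteratedFDeriv_zero] at h
    exact h.trans (le_abs_self _)
  have hb : ∀ x ∈ K, ∀ u v w : V d, |⟪G x (Riem G x u v v), w⟫_ℝ| ≤ |B m 0| * |C1| * (‖u‖ * ‖w‖ * ‖v‖ ^ 2) := by
    intro x hx u v w
    have h1 : ‖Riem G x u v v‖ ≤ |C1| * ‖u‖ * ‖v‖ * ‖v‖ := by
      refine ((hC1 G hmet hG.lo hG.bd).2.2.1 x u v v (hKm x hx)).trans ?_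
      gcongr
      exact le_abs_self _
    calc |⟪G x (Riem G x u v v), w⟫_ℝ| ≤ ‖G x (Riem G x u v v)‖ * ‖w‖ := abs_real_inner_le_norm _ _
      _ ≤ (|B m 0| * (|C1| * ‖u‖ * ‖v‖ * ‖v‖)) * ‖w‖ := by
        gcongr
        exact ((G x).le_opNorm _).trans (mul_le_mul (hGx x hx) h1 (norm_nonneg _) (abs_nonneg _))
      _ = |B m 0| * |C1| * (‖u‖ * ‖w‖ * ‖v‖ ^ 2) := by ring
  have hK3 : ∀ x ∈ K, ∀ u v w : V d, ⟪G x (Riem G x u v v), w⟫_ℝ ^ 2 ≤ D ^ 2 * ⟪G x u, u⟫_ℝ * ⟪G x w, w⟫_ℝ * ⟪G x v, v⟫_ℝ ^ 2 := by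
    intro x hx u v w
    have h1 : ⟪G x (Riem G x u v v), w⟫_ℝ ^ 2 ≤ (|B m 0| * |C1| * (‖u‖ * ‖w‖ * ‖v‖ ^ 2)) ^ 2 := by
      rw [← sq_abs]
      exact pow_le_pow_left₀ (abs_nonneg _) (hb x hx u v w) 2
    have h2 : (|B m 0| * |C1| * (‖u‖ * ‖w‖ * ‖v‖ ^ 2)) ^ 2 = (|B m 0| * |C1|) ^ 2 * (‖u‖ ^ 2 * ‖w‖ ^ 2 * (‖v‖ ^ 2) ^ 2) := by ring
    have h3 : ‖u‖ ^ 2 * ‖w‖ ^ 2 * (‖v‖ ^ 2) ^ 2 ≤ (C2 * ⟪G x u, u⟫_ℝ) * (C2 * ⟪G x w, w⟫_ℝ) * (C2 * ⟪G x v, v⟫_ℝ) ^ 2 := by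
      have hu := hn x hx u
      have hv := hn x hx v
      have hw := hn x hx w
      have hu0 : 0 ≤ C2 * ⟪G x u, u⟫_ℝ := mul_nonneg (by linarith) (hn0 x u)
      have hw0 : 0 ≤ C2 * ⟪G x w, w⟫_ℝ := mul_nonneg (by linarith) (hn0 x w)
      exact mul_le_mul (mul_le_mul hu hw (by positivity) hu0) (pow_le_pow_left₀ (by positivity) hv 2) (by positivity) (mul_nonneg hu0 hw0)
    calc ⟪G x (Riem G x u v v), w⟫_ℝ ^ 2 ≤ (|B m 0| * |C1|) ^ 2 * (‖u‖ ^ 2 * ‖w‖ ^ 2 * (‖v‖ ^ 2) ^ 2) := h1.trans (le_of_eq h2)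
      _ ≤ (|B m 0| * |C1|) ^ 2 * ((C2 * ⟪G x u, u⟫_ℝ) * (C2 * ⟪G x w, w⟫_ℝ) * (C2 * ⟪G x v, v⟫_ℝ) ^ 2) := mul_le_mul_of_nonneg_left h3 (by positivity)
      _ = (|B m 0| * |C1| * C2 ^ 2) ^ 2 * (⟪G x u, u⟫_ℝ * ⟪G x w, w⟫_ℝ * ⟪G x v, v⟫_ℝ ^ 2) := by ring
      _ ≤ D ^ 2 * (⟪G x u, u⟫_ℝ * ⟪G x w, w⟫_ℝ * ⟪G x v, v⟫_ℝ ^ 2) := by
        refine mul_le_mul_of_nonneg_right (pow_le_pow_left₀ (by positivity) hD2 2) ?_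
        exact mul_nonneg (mul_nonneg (hn0 x u) (hn0 x w)) (by positivity)
      _ = D ^ 2 * ⟪G x u, u⟫_ℝ * ⟪G x w, w⟫_ℝ * ⟪G x v, v⟫_ℝ ^ 2 := by ring
  -- transport
  obtain ⟨-, hnat⟩ := hGNT d Γ G hmet hK.smooth hG.isom
  have hnat2 : ∀ (γ : Γ) (x u v w : V d), ⟪G (γ • x) (Riem G (γ • x) (fderiv ℝ (fun y : V d => γ • y) x u) (fderiv ℝ (fun y : V d => γ • y) x v) (fderiv ℝ (fun y : V d => γ • y) x v)), fderiv ℝ (fun y : V d => γ • y) x w⟫_ℝ = ⟪G x (Riem G x u v v), w⟫_ℝ := by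
    intro γ x u v w
    have h1 := GNG_pol hGRI d G hmet x u v w
    have h2 := GNG_pol hGRI d G hmet (γ • x) (fderiv ℝ (fun y : V d => γ • y) x u) (fderiv ℝ (fun y : V d => γ • y) x v) (fderiv ℝ (fun y : V d => γ • y) x w)
    rw [← map_add, hnat, hnat, hnat] at h2
    linarith
  have h3 : ∀ x u v w : V d, ⟪G x (Riem G x u v v), w⟫_ℝ ^ 2 ≤ D ^ 2 * ⟪G x u, u⟫_ℝ * ⟪G x w, w⟫_ℝ * ⟪G x v, v⟫_ℝ ^ 2 := by
    intro x u v w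
    obtain ⟨γ, hγ⟩ := hK.cover x
    have h := hK3 (γ • x) hγ (fderiv ℝ (fun y : V d => γ • y) x u) (fderiv ℝ (fun y : V d => γ • y) x v) (fderiv ℝ (fun y : V d => γ • y) x w)
    rw [hnat2, hG.isom, hG.isom, hG.isom] at h
    exact h
  refine ⟨?_, ?_, h3⟩
  · intro x u v
    obtain ⟨γ, hγ⟩ := hK.cover x
    have h := hG.neg (γ • x) hγ (fderiv ℝ (fun y : V d => γ • y) x u) (fderiv ℝ (fun y : V d => γ • y) x v)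
    rw [hnat, hG.isom, hG.isom, hG.isom] at h
    exact h
  · intro x u v
    have h := h3 x u v u
    have h4 : D ^ 2 * ⟪G x u, u⟫_ℝ * ⟪G x u, u⟫_ℝ * ⟪G x v, v⟫_ℝ ^ 2 = (D * (⟪G x u, u⟫_ℝ * ⟪G x v, v⟫_ℝ)) ^ 2 := by ring
    rw [h4] at h
    have h5 : 0 ≤ D * (⟪G x u, u⟫_ℝ * ⟪G x v, v⟫_ℝ) := mul_nonneg (by linarith) (mul_nonneg (hn0 x u) (hn0 x v))
    have h6 := abs_le_of_sq_le_sq h h5
    linarith [neg_abs_le ⟪G x (Riem G x u v v), u⟫_ℝ]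

end

end Pool.Agent.VD
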